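import Pool.Agent.Helper13_Eng2.Stmts

/-!
Squad ENG, part 2, modules HTR, HCV (helper47).
-/

set_option autoImplicit false

namespace Pool.Agent.Eng.H47

open Matrix

variable {K V : Type} [Field K] [StarRing K] [AddCommGroup V] [Module K V] {n : ℕ}

/-- the matrix of an endomorphism in the coordinates `e` -/
noncomputable def mt (e : V ≃ₗ[K] (Fin n → K)) (f : V →ₗ[K] V) : Matrix (Fin n) (Fin n) K :=
  LinearMap.toMatrix' (e.toLinearMap ∘ₗ f ∘ₗ e.symm.toLinearMap)

theorem mt_mulVec (e : V ≃ₗ[K] (Fin n → K)) (f : V →ₗ[K] V) (v : V) :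
    mt e f *ᵥ e v = e (f v) := by
  unfold mt
  rw [← Matrix.toLin'_apply, Matrix.toLin'_toMatrix']
  simp

theorem mt_ext (e : V ≃ₗ[K] (Fin n → K)) (f : V →ₗ[K] V) (A : Matrix (Fin n) (Fin n) K)
    (h : ∀ v, A *ᵥ e v = e (f v)) : mt e f = A := by
  apply Matrix.toLin'.injective
  refine LinearMap.ext fun x => ?_
  obtain ⟨v, rfl⟩ := e.surjective x
  rw [Matrix.toLin'_apply, Matrix.toLin'_apply, mt_mulVec, h]

theorem mt_mul (e : V ≃ₗ[K] (Fin n → K)) (f g : V →ₗ[K] V) :
    mt e (f * g) = mt e f * mt e g := by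
  refine mt_ext e _ _ fun v => ?_
  rw [← Matrix.mulVec_mulVec, mt_mulVec, mt_mulVec]
  rfl

theorem mt_det (e : V ≃ₗ[K] (Fin n → K)) (f : V →ₗ[K] V) : (mt e f).det = LinearMap.det f := by
  unfold mt
  rw [LinearMap.det_toMatrix']
  exact LinearMap.det_conj f e

theorem mt_herm (e : V ≃ₗ[K] (Fin n → K)) (h : V → V → K)
    (he : ∀ u v, h u v = ∑ i, star (e u i) * e v i) (f : V →ₗ[K] V) :
    (∀ u v, h (f u) (f v) = h u v) ↔ star (mt e f) * mt e f = 1 := by
  have he' : ∀ u v, h u v = star (e u) ⬝ᵥ e v := fun u v => he u v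
  have key : ∀ u v, h (f u) (f v) = star (e u) ⬝ᵥ ((star (mt e f) * mt e f) *ᵥ e v) := by
    intro u v
    rw [he', ← mt_mulVec, ← mt_mulVec, Matrix.star_mulVec, ← Matrix.dotProduct_mulVec,
      Matrix.mulVec_mulVec]
    rfl
  constructor
  · intro hf
    apply Matrix.toLin'.injective
    refine LinearMap.ext fun x => ?_
    rw [Matrix.toLin'_apply, Matrix.toLin'_apply, Matrix.one_mulVec]
    obtain ⟨v, rfl⟩ := e.surjective x
    funext i
    obtain ⟨u, hu⟩ := e.surjective (Pi.single i 1)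
    have h1 := key u v
    rw [hf, he', hu] at h1
    have h2 : star (Pi.single i (1 : K) : Fin n → K) = Pi.single i 1 := by
      funext j
      rw [Pi.star_apply]
      rcases eq_or_ne j i with rfl | hj
      · simp
      · simp [Pi.single_eq_of_ne hj]
    rw [h2, single_one_dotProduct, single_one_dotProduct] at h1
    exact h1.symm
  · intro hA u v
    rw [key, hA, Matrix.one_mulVec, he']

theorem mt_mem (e : V ≃ₗ[K] (Fin n → K)) (h : V → V → K)
    (he : ∀ u v, h u v = ∑ i, star (e u i) * e v i) (g : ↥(SUV h)) :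
    mt e (g.1 : V →ₗ[K] V) ∈ Matrix.specialUnitaryGroup (Fin n) K := by
  rw [Matrix.mem_specialUnitaryGroup_iff, Matrix.mem_unitaryGroup_iff', mt_det]
  exact ⟨(mt_herm e h he _).1 g.2.1, g.2.2⟩

/-- the homomorphism to the unitary group -/
noncomputable def hom (e : V ≃ₗ[K] (Fin n → K)) (h : V → V → K)
    (he : ∀ u v, h u v = ∑ i, star (e u i) * e v i) : ↥(SUV h) →* SU n K :=
  MonoidHom.mk' (fun g => ⟨mt e (g.1 : V →ₗ[K] V), mt_mem e h he g⟩) fun a b =>
    Subtype.ext (mt_mul e (a.1 : V →ₗ[K] V) (b.1 : V →ₗ[K] V))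

/-- the isomorphism with the unitary group -/
noncomputable def iso (e : V ≃ₗ[K] (Fin n → K)) (h : V → V → K)
    (he : ∀ u v, h u v = ∑ i, star (e u i) * e v i) : ↥(SUV h) ≃* SU n K := by
  refine MulEquiv.ofBijective (hom e h he) ⟨?_, ?_⟩
  · intro a b hab
    have h1 : mt e (a.1 : V →ₗ[K] V) = mt e (b.1 : V →ₗ[K] V) := congrArg Subtype.val hab
    apply Subtype.ext
    refine LinearEquiv.ext fun v => ?_
    apply e.injective
    have h2 := mt_mulVec e (a.1 : V →ₗ[K] V) v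
    have h3 := mt_mulVec e (b.1 : V →ₗ[K] V) v
    rw [h1, h3] at h2
    exact h2.symm
  · intro A
    obtain ⟨hA1, hA2⟩ := (Matrix.mem_specialUnitaryGroup_iff).1 A.2
    rw [Matrix.mem_unitaryGroup_iff'] at hA1
    have hA3 : A.1 * star A.1 = 1 := mul_eq_one_comm.1 hA1
    let f : V →ₗ[K] V := e.symm.toLinearMap ∘ₗ (Matrix.toLin' A.1) ∘ₗ e.toLinearMap
    let f' : V →ₗ[K] V := e.symm.toLinearMap ∘ₗ (Matrix.toLin' (star A.1)) ∘ₗ e.toLinearMap
    have e1 : f ∘ₗ f' = LinearMap.id := by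
      refine LinearMap.ext fun v => ?_
      simp only [f, f', LinearMap.comp_apply, LinearEquiv.coe_coe, LinearEquiv.apply_symm_apply,
        Matrix.toLin'_apply, Matrix.mulVec_mulVec, hA3, Matrix.one_mulVec,
        LinearEquiv.symm_apply_apply, LinearMap.id_apply]
    have e2 : f' ∘ₗ f = LinearMap.id := by
      refine LinearMap.ext fun v => ?_
      simp only [f, f', LinearMap.comp_apply, LinearEquiv.coe_coe, LinearEquiv.apply_symm_apply,
        Matrix.toLin'_apply, Matrix.mulVec_mulVec, hA1, Matrix.one_mulVec,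
        LinearEquiv.symm_apply_apply, LinearMap.id_apply]
    let g : V ≃ₗ[K] V := LinearEquiv.ofLinearMap f f' e1 e2
    have hg : (g : V →ₗ[K] V) = f := rfl
    have hm : mt e f = A.1 := by
      refine mt_ext e f _ fun v => ?_
      simp only [f, LinearMap.comp_apply, LinearEquiv.coe_coe, LinearEquiv.apply_symm_apply,
        Matrix.toLin'_apply]
    refine ⟨⟨g, ?_, ?_⟩, ?_⟩
    · exact (mt_herm e h he f).2 (by rw [hm]; exact hA1)
    · rw [hg, ← mt_det e, hm]
      exact hA2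
    · exact Subtype.ext hm

theorem iso_apply (e : V ≃ₗ[K] (Fin n → K)) (h : V → V → K)
    (he : ∀ u v, h u v = ∑ i, star (e u i) * e v i) (g : ↥(SUV h)) :
    ((iso e h he g : SU n K) : Matrix (Fin n) (Fin n) K) = mt e (g.1 : V →ₗ[K] V) := rfl

theorem htr (hbas : HbasStmt) (_ : HcenStmt) : HtrStmt := by
  intro K V _ _ _ _ _ _ h n hx hh hn
  obtain ⟨e, he⟩ := hbas K V h n hx hh hn
  exact ⟨iso e h he⟩

theorem hcv (hbas : HbasStmt) (hcen : HcenStmt) : HcvStmt := by
  intro K V _ _ _ _ _ _ h hx hh g hg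
  obtain ⟨e, he⟩ := hbas K V h (Module.finrank K V) hx hh rfl
  have h1 : iso e h he g ∈ Subgroup.center (SU (Module.finrank K V) K) := by
    rw [Subgroup.mem_center_iff] at hg ⊢
    intro B
    obtain ⟨b, rfl⟩ := (iso e h he).surjective B
    rw [← map_mul, ← map_mul, hg b]
  obtain ⟨c, hc⟩ := (hcen K _ _ hx).1 h1
  refine ⟨c, fun v => ?_⟩
  apply e.injective
  have h2 := mt_mulVec e (g.1 : V →ₗ[K] V) v
  rw [← iso_apply e h he g, hc, Matrix.smul_mulVec, Matrix.one_mulVec] at h2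
  rw [map_smul]
  exact h2.symm

end Pool.Agent.Eng.H47
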