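import Pool.Agent.Helper13_Eng2.Stmts

/-!
Squad ENG, part 2, modules WNS, WSQ (helper47).
-/

set_option autoImplicit false

namespace Pool.Agent.Eng.H47

open Matrix

theorem wns : WnsStmt := by
  intro L _ _ e d u hd hu hud he
  have hu0 : u ≠ 0 := by
    rintro rfl
    exact hu ⟨0, by simp⟩
  have : Fintype L := Fintype.ofFinite L
  obtain ⟨g, hg⟩ := IsCyclic.exists_generator (α := Lˣ)
  obtain ⟨a, ha⟩ : ∃ a : ℕ, g ^ a = Units.mk0 u hu0 := by
    have h1 := hg (Units.mk0 u hu0)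
    rw [← mem_powers_iff_mem_zpowers] at h1
    obtain ⟨a, ha⟩ := h1
    exact ⟨a, ha⟩
  have hodd : ¬ 2 ∣ a := by
    rintro ⟨b, rfl⟩
    apply hu
    refine ⟨((g ^ b : Lˣ) : L), ?_⟩
    have h2 := congrArg Units.val ha
    rw [Units.val_mk0] at h2
    rw [← h2, mul_comm 2 b, pow_mul, pow_two, Units.val_mul]
  have h1 : g ^ (a * d) = 1 := by
    rw [pow_mul, ha]
    ext
    rw [Units.val_pow_eq_pow_val, Units.val_mk0, hud, Units.val_one]
  have h2 : orderOf g = Nat.card L - 1 := by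
    rw [orderOf_eq_card_of_forall_mem_zpowers hg, Nat.card_units]
  have h3 : 2 ^ e ∣ a * d := he.trans (h2 ▸ orderOf_dvd_of_pow_eq_one h1)
  refine Nat.Coprime.dvd_of_dvd_mul_left ?_ h3
  exact Nat.Coprime.pow_left e ((Nat.Prime.coprime_iff_not_dvd Nat.prime_two).2 hodd)

theorem wsq : WsqStmt := by
  intro L _ _ tau h1 ht
  by_contra hcon
  push Not at hcon
  obtain ⟨⟨a, ha⟩, ⟨b, hb⟩⟩ := hcon
  obtain ⟨i, hi⟩ := h1
  have ht0 : tau ≠ 0 := by
    rintro rfl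
    exact ht ⟨0, by simp⟩
  have ht1 : tau ≠ 1 := by
    rintro rfl
    exact ht ⟨1, by simp⟩
  have hb0 : b ≠ 0 := by
    rintro rfl
    rw [mul_zero, sub_eq_zero] at hb
    exact ht1 (inv_eq_one.1 hb)
  apply ht
  refine ⟨i * a / b, ?_⟩
  have e1 : i * a / b * (i * a / b) = (i * i) * (a * a) / (b * b) := by
    field_simp
  rw [e1, ← hi, ← ha, ← hb]
  have hb' : tau⁻¹ - 1 ≠ 0 := by rw [hb]; exact mul_ne_zero hb0 hb0
  rw [eq_div_iff hb']
  field_simp
  ring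

end Pool.Agent.Eng.H47
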