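import Pool.Agent.Helper6_Eng.Stmts

/-!
# Squad ENG, module EB: braid pairs of elements of odd prime power order in `SL(2,K)`
-/

set_option autoImplicit false

namespace Pool.Agent.Eng.H47

open Matrix Polynomial

lemma fixed_in_base (K L : Type) [Field K] [Fintype K] [Field L] [Algebra K L] (x : L)
    (h : x ^ Fintype.card K = x) : ∃ a : K, algebraMap K L a = x := by
  have hcard : 1 < Fintype.card K := Fintype.one_lt_card
  have hs : (X ^ Fintype.card K - X : K[X]).Splits := by
    rw [splits_iff_card_roots, FiniteField.roots_X_pow_card_sub_X,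
      FiniteField.X_pow_card_sub_X_natDegree_eq K hcard]
    rfl
  have hr := hs.roots_map (algebraMap K L)
  have hx : x ∈ ((X ^ Fintype.card K - X : K[X]).map (algebraMap K L)).roots := by
    rw [mem_roots']
    constructor
    · rw [Polynomial.map_ne_zero_iff (algebraMap K L).injective]
      exact FiniteField.X_pow_card_sub_X_ne_zero K hcard
    · simp [IsRoot, h]
  rw [hr, FiniteField.roots_X_pow_card_sub_X, Multiset.mem_map] at hx
  obtain ⟨a, _, ha⟩ := hx
  exact ⟨a, ha⟩

lemma exists_lam (K : Type) [Field K] [Finite K] (p k : ℕ)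
    (h : p ^ k ∣ Nat.card K - 1 ∨ p ^ k ∣ Nat.card K + 1) :
    ∃ (lam : AlgebraicClosure K) (τ : K), IsPrimitiveRoot lam (p ^ k) ∧
      algebraMap K (AlgebraicClosure K) τ = lam + lam⁻¹ := by
  haveI : Fintype K := Fintype.ofFinite K
  rw [Nat.card_eq_fintype_card] at h
  set q := Fintype.card K with hq
  have hq1 : 1 < q := Fintype.one_lt_card
  have hq0 : ((q : ℕ) : K) = 0 := FiniteField.cast_card_eq_zero K
  have hne : ((p ^ k : ℕ) : K) ≠ 0 := by
    intro h0
    rcases h with ⟨c, hc⟩ | ⟨c, hc⟩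
    · have h1 : q = p ^ k * c + 1 := by omega
      have h2 : ((q : ℕ) : K) = ((p ^ k * c + 1 : ℕ) : K) := by rw [← h1]
      rw [hq0, Nat.cast_add, Nat.cast_mul, h0] at h2
      simp at h2
    · have h2 : ((q + 1 : ℕ) : K) = ((p ^ k * c : ℕ) : K) := by rw [← hc]
      rw [Nat.cast_add, hq0, Nat.cast_mul, h0] at h2
      simp at h2
  have : NeZero ((p ^ k : ℕ) : AlgebraicClosure K) := by
    constructor
    intro h0
    apply hne
    apply (algebraMap K (AlgebraicClosure K)).injective
    rw [map_natCast, map_zero]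
    exact h0
  obtain ⟨lam, hlam⟩ := HasEnoughRootsOfUnity.exists_primitiveRoot (AlgebraicClosure K) (p ^ k)
  have hlam0 : lam ≠ 0 := by
    have hpk : p ^ k ≠ 0 := by
      intro h0
      apply hne
      rw [h0]
      simp
    exact hlam.ne_zero hpk
  have hfrob : ∀ x : AlgebraicClosure K,
      FiniteField.frobeniusAlgHom K (AlgebraicClosure K) x = x ^ q := fun x => rfl
  have hx : (lam + lam⁻¹) ^ q = lam + lam⁻¹ := by
    rw [← hfrob, map_add, hfrob, hfrob, inv_pow]
    rcases h with h | h
    · have h1 : lam ^ (q - 1) = 1 := hlam.pow_eq_one_iff_dvd _ |>.mpr h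
      have h2 : lam ^ q = lam := by
        have : q = (q - 1) + 1 := by omega
        rw [this, pow_succ, h1, one_mul]
      rw [h2]
    · have h1 : lam ^ (q + 1) = 1 := hlam.pow_eq_one_iff_dvd _ |>.mpr h
      have h2 : lam ^ q = lam⁻¹ := by
        rw [pow_succ] at h1
        exact eq_inv_of_mul_eq_one_left h1
      rw [h2, inv_inv, add_comm]
  obtain ⟨τ, hτ⟩ := fixed_in_base K (AlgebraicClosure K) _ hx
  exact ⟨lam, τ, hlam, hτ⟩

/-- the companion matrix -/
def cw {K : Type} [Field K] (τ : K) : Matrix.SpecialLinearGroup (Fin 2) K :=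
  ⟨!![0, -1; 1, τ], by simp [Matrix.det_fin_two]⟩

lemma cw_coe {K : Type} [Field K] (τ : K) : (cw τ : Matrix (Fin 2) (Fin 2) K) = !![0, -1; 1, τ] :=
  rfl

section
variable {K L : Type} [Field K] [Field L] [Algebra K L]

/-- left eigenvectors -/
def PP (lam : L) : Matrix (Fin 2) (Fin 2) L := !![1, lam; 1, lam⁻¹]

/-- eigenvalues -/
def DD (lam : L) : Matrix (Fin 2) (Fin 2) L := !![lam, 0; 0, lam⁻¹]

lemma DD_pow (lam : L) (n : ℕ) : DD lam ^ n = !![lam ^ n, 0; 0, (lam⁻¹) ^ n] := by
  induction n with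
  | zero =>
    rw [pow_zero, pow_zero, pow_zero]
    ext i j
    fin_cases i <;> fin_cases j <;> rfl
  | succ n ih =>
    rw [pow_succ, ih]
    unfold DD
    rw [Matrix.mul_fin_two]
    simp [pow_succ]

lemma PP_mul (lam : L) (hl : lam ≠ 0) (τ : K) (hτ : algebraMap K L τ = lam + lam⁻¹) (n : ℕ) :
    PP lam * ((cw τ : Matrix (Fin 2) (Fin 2) K).map (algebraMap K L)) ^ n =
      DD lam ^ n * PP lam := by
  have hbase : PP lam * ((cw τ : Matrix (Fin 2) (Fin 2) K).map (algebraMap K L)) =
      DD lam * PP lam := by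
    have e : (cw τ : Matrix (Fin 2) (Fin 2) K).map (algebraMap K L) =
        !![0, -1; 1, lam + lam⁻¹] := by
      rw [cw_coe]
      ext i j
      fin_cases i <;> fin_cases j <;> simp [hτ]
    rw [e]
    unfold PP DD
    rw [Matrix.mul_fin_two, Matrix.mul_fin_two]
    have h1 : lam * lam⁻¹ = 1 := mul_inv_cancel₀ hl
    ext i j
    fin_cases i <;> fin_cases j
    · simp
    · simp only [Fin.zero_eta, Fin.isValue, Fin.mk_one, of_apply, cons_val', cons_val_one,
        cons_val_fin_one, cons_val_zero]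
      linear_combination h1
    · simp
    · simp only [Fin.isValue, Fin.mk_one, of_apply, cons_val', cons_val_one,
        cons_val_fin_one]
      linear_combination h1
  induction n with
  | zero => simp
  | succ n ih =>
    rw [pow_succ, ← Matrix.mul_assoc, ih, Matrix.mul_assoc, hbase, ← Matrix.mul_assoc, ← pow_succ]

lemma cw_pow_iff (lam : L) (hl : lam ≠ 0) (hl2 : lam ^ 2 ≠ 1) (τ : K)
    (hτ : algebraMap K L τ = lam + lam⁻¹) (n : ℕ) : (cw τ) ^ n = 1 ↔ lam ^ n = 1 := by
  have key := PP_mul lam hl τ hτ n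
  have hmap : ((cw τ : Matrix (Fin 2) (Fin 2) K).map (algebraMap K L)) ^ n =
      (((cw τ) ^ n : Matrix.SpecialLinearGroup (Fin 2) K) : Matrix (Fin 2) (Fin 2) K).map
        (algebraMap K L) := by
    rw [Matrix.SpecialLinearGroup.coe_pow]
    exact (map_pow (algebraMap K L).mapMatrix _ n).symm
  have hone : ((1 : Matrix.SpecialLinearGroup (Fin 2) K) : Matrix (Fin 2) (Fin 2) K).map
      (algebraMap K L) = 1 := by
    rw [Matrix.SpecialLinearGroup.coe_one]
    exact map_one (algebraMap K L).mapMatrix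
  constructor
  · intro h
    rw [hmap, h, hone, Matrix.mul_one, DD_pow] at key
    have h1 := congrFun (congrFun key 0) 0
    unfold PP at h1
    rw [Matrix.mul_fin_two] at h1
    simpa using h1.symm
  · intro h
    have h2 : DD lam ^ n = 1 := by
      rw [DD_pow, h, inv_pow, h, inv_one]
      ext i j
      fin_cases i <;> fin_cases j <;> rfl
    rw [h2, Matrix.one_mul, hmap] at key
    have hdet : IsUnit (PP lam).det := by
      unfold PP
      rw [Matrix.det_fin_two_of, isUnit_iff_ne_zero]
      intro h0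
      apply hl2
      have h3 : lam⁻¹ = lam := by linear_combination h0
      have h4 : lam * lam⁻¹ = 1 := mul_inv_cancel₀ hl
      rw [h3] at h4
      rw [pow_two]
      exact h4
    have h3 : (((cw τ) ^ n : Matrix.SpecialLinearGroup (Fin 2) K) : Matrix (Fin 2) (Fin 2) K).map
        (algebraMap K L) = 1 := by
      calc _ = (PP lam)⁻¹ * (PP lam * (((cw τ) ^ n : Matrix.SpecialLinearGroup (Fin 2) K) :
            Matrix (Fin 2) (Fin 2) K).map (algebraMap K L)) := by
            rw [← Matrix.mul_assoc, Matrix.nonsing_inv_mul _ hdet, Matrix.one_mul]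
        _ = 1 := by rw [key, Matrix.nonsing_inv_mul _ hdet]
    rw [← hone] at h3
    exact Subtype.ext (Matrix.map_injective (algebraMap K L).injective h3)

end

lemma conic (K : Type) [Field K] [Finite K] (τ : K) (h : τ ^ 2 ≠ 4) :
    ∃ a b : K, a ^ 2 - τ * a * b + b ^ 2 - τ * a + (τ ^ 2 - 1) * b + 1 = 0 := by
  haveI : Fintype K := Fintype.ofFinite K
  by_cases h2 : (2 : K) = 0
  · refine ⟨τ + 1, 1, ?_⟩
    linear_combination h2
  · have hchar : ringChar K ≠ 2 := by
      intro hr
      apply h2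
      have := (ringChar.spec K 2).mpr (by rw [hr])
      exact_mod_cast this
    have hodd := FiniteField.odd_card_of_char_ne_two hchar
    set D : K := 4 - τ ^ 2 with hD
    have hD0 : D ≠ 0 := by
      rw [hD, sub_ne_zero]
      exact fun h' => h h'.symm
    obtain ⟨x, y, hxy⟩ := FiniteField.exists_root_sum_quadratic
      (f := C D * X ^ 2) (g := X ^ 2 - C (4 * τ ^ 2 - 12))
      (degree_C_mul_X_pow 2 hD0) (degree_X_pow_sub_C (by norm_num) _) hodd
    simp only [eval_mul, eval_C, eval_pow, eval_X, eval_sub] at hxy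
    set b : K := (y - τ ^ 2 + 2) / D with hb
    set a : K := (x + τ * b + τ) / 2 with ha
    have hX : x = 2 * a - τ * b - τ := by
      rw [ha]
      field_simp
      ring
    have hY : y = D * b + τ ^ 2 - 2 := by
      rw [hb]
      field_simp
      ring
    refine ⟨a, b, ?_⟩
    have h4 : (4 : K) ≠ 0 := by
      have : (4 : K) = 2 * 2 := by norm_num
      rw [this]
      exact mul_ne_zero h2 h2
    have h5 : 4 * D * (a ^ 2 - τ * a * b + b ^ 2 - τ * a + (τ ^ 2 - 1) * b + 1) = 0 := by
      rw [hX, hY] at hxy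
      rw [hD] at hxy ⊢
      linear_combination hxy
    rcases mul_eq_zero.mp h5 with h6 | h6
    · exact absurd h6 (mul_ne_zero h4 hD0)
    · exact h6

theorem eb : Sl2FinStmt := by
  intro K _ _ p k hp hp2 hk hdvd hexc
  obtain ⟨lam, τ, hlam, hτ⟩ := exists_lam K p k hdvd
  have hpk : p ^ k ≠ 0 := pow_ne_zero _ hp.ne_zero
  have hlam0 : lam ≠ 0 := hlam.ne_zero hpk
  have hpk1 : p ^ k ≠ 1 := by
    intro h
    have := Nat.one_lt_pow (by omega : k ≠ 0) hp.one_lt
    omega
  have hcop : Nat.Coprime (p ^ k) 2 :=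
    Nat.Coprime.pow_left k ((Nat.coprime_primes hp Nat.prime_two).mpr hp2)
  have hlam2 : lam ^ 2 ≠ 1 := by
    intro h
    exact hpk1 (Nat.Coprime.eq_one_of_dvd hcop (hlam.dvd_of_pow_eq_one 2 h))
  have hτ4 : τ ^ 2 ≠ 4 := by
    intro h
    apply hlam2
    have h1 : (lam + lam⁻¹) ^ 2 = 4 := by
      rw [← hτ, ← map_pow, h]
      exact map_ofNat _ 4
    have h2 : lam * lam⁻¹ = 1 := mul_inv_cancel₀ hlam0
    have h3 : (lam - lam⁻¹) ^ 2 = 0 := by linear_combination h1 - 4 * h2
    have h4 : lam - lam⁻¹ = 0 := by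
      exact pow_eq_zero_iff (two_ne_zero) |>.mp h3
    have h5 : lam⁻¹ = lam := by linear_combination -h4
    rw [h5] at h2
    rw [pow_two]
    exact h2
  obtain ⟨a, b, hab⟩ := conic K τ hτ4
  set c : K := b + τ * (τ - a) - 1 with hc
  have hdet : Matrix.det !![a, b; c, τ - a] = 1 := by
    rw [Matrix.det_fin_two_of, hc]
    linear_combination -hab
  set w : Matrix.SpecialLinearGroup (Fin 2) K := cw τ with hw
  set z : Matrix.SpecialLinearGroup (Fin 2) K := ⟨!![a, b; c, τ - a], hdet⟩ with hz
  have hzc : (z : Matrix (Fin 2) (Fin 2) K) = !![a, b; c, τ - a] := rfl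
  have hbraid : z * w * z = w * z * w := by
    apply Subtype.ext
    rw [Matrix.SpecialLinearGroup.coe_mul, Matrix.SpecialLinearGroup.coe_mul, Matrix.SpecialLinearGroup.coe_mul,
      Matrix.SpecialLinearGroup.coe_mul, hzc, hw, cw_coe, Matrix.mul_fin_two, Matrix.mul_fin_two,
      Matrix.mul_fin_two, Matrix.mul_fin_two]
    ext i j
    fin_cases i <;> fin_cases j
    · simp only [Fin.zero_eta, Fin.isValue, of_apply, cons_val', cons_val_zero, cons_val_fin_one]
      rw [hc]
      linear_combination τ * hab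
    · simp only [Fin.zero_eta, Fin.isValue, Fin.mk_one, of_apply, cons_val', cons_val_one,
        cons_val_fin_one, cons_val_zero]
      rw [hc]
      linear_combination hab
    · simp only [Fin.zero_eta, Fin.isValue, Fin.mk_one, of_apply, cons_val', cons_val_one,
        cons_val_fin_one, cons_val_zero]
      rw [hc]
      linear_combination -hab
    · simp only [Fin.isValue, Fin.mk_one, of_apply, cons_val', cons_val_one, cons_val_fin_one]
      rw [hc]
      linear_combination (0 : K) * hab
  have horder : orderOf w = p ^ k := by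
    apply Nat.dvd_antisymm
    · rw [orderOf_dvd_iff_pow_eq_one, hw, cw_pow_iff lam hlam0 hlam2 τ hτ]
      exact hlam.pow_eq_one
    · apply hlam.dvd_of_pow_eq_one
      rw [← cw_pow_iff lam hlam0 hlam2 τ hτ, ← hw]
      exact pow_orderOf_eq_one w
  refine ⟨w, z, hbraid, horder, ?_⟩
  have hpow : ∀ n : ℕ, ∃ α β : K, (w : Matrix (Fin 2) (Fin 2) K) ^ n =
      α • (1 : Matrix (Fin 2) (Fin 2) K) + β • (w : Matrix (Fin 2) (Fin 2) K) := by
    intro n
    have hsq : (w : Matrix (Fin 2) (Fin 2) K) * (w : Matrix (Fin 2) (Fin 2) K) =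
        τ • (w : Matrix (Fin 2) (Fin 2) K) - 1 := by
      rw [hw, cw_coe, Matrix.mul_fin_two]
      ext i j
      fin_cases i <;> fin_cases j <;> simp
      ring
    induction n with
    | zero => exact ⟨1, 0, by simp⟩
    | succ n ih =>
      obtain ⟨α, β, h⟩ := ih
      refine ⟨-β, α + β * τ, ?_⟩
      rw [pow_succ, h, Matrix.add_mul, Matrix.smul_mul, Matrix.smul_mul, hsq, Matrix.one_mul,
        smul_sub, smul_smul, add_smul, neg_smul]
      abel
  intro n hn
  obtain ⟨α, β, h⟩ := hpow n
  have hn' : (w : Matrix (Fin 2) (Fin 2) K) ^ n * (z : Matrix (Fin 2) (Fin 2) K) =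
      (z : Matrix (Fin 2) (Fin 2) K) * (w : Matrix (Fin 2) (Fin 2) K) ^ n := by
    have := congrArg (fun g : Matrix.SpecialLinearGroup (Fin 2) K => (g : Matrix (Fin 2) (Fin 2) K)) hn
    simpa [Matrix.SpecialLinearGroup.coe_mul, Matrix.SpecialLinearGroup.coe_pow] using this
  by_cases hβ : β = 0
  · refine ⟨α, ?_⟩
    rw [h, hβ, zero_smul, add_zero]
  · exfalso
    have hcomm : (w : Matrix (Fin 2) (Fin 2) K) * (z : Matrix (Fin 2) (Fin 2) K) =
        (z : Matrix (Fin 2) (Fin 2) K) * (w : Matrix (Fin 2) (Fin 2) K) := by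
      rw [h, Matrix.add_mul, Matrix.mul_add, Matrix.smul_mul, Matrix.smul_mul, Matrix.mul_smul,
        Matrix.mul_smul, Matrix.one_mul, Matrix.mul_one, add_right_inj] at hn'
      exact smul_right_injective _ hβ hn'
    have hcomm' : w * z = z * w := Subtype.ext hcomm
    have hzw : z = w := by
      have h1 : z * w * z = w * z * w := hbraid
      rw [← hcomm', mul_assoc w z w, ← hcomm', mul_assoc w z z] at h1
      have h2 := mul_left_cancel h1
      exact mul_right_cancel h2
    have hm : (z : Matrix (Fin 2) (Fin 2) K) = (w : Matrix (Fin 2) (Fin 2) K) := by rw [hzw]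
    rw [hzc, hw, cw_coe] at hm
    have e00 := congrFun (congrFun hm 0) 0
    have e01 := congrFun (congrFun hm 0) 1
    have e10 := congrFun (congrFun hm 1) 0
    simp at e00 e01 e10
    have hτ3 : τ ^ 2 = 3 := by
      rw [hc, e00, e01] at e10
      linear_combination e10
    have hl3 : (lam + lam⁻¹) ^ 2 = 3 := by
      rw [← hτ, ← map_pow, hτ3]
      exact map_ofNat _ 3
    have hinv : lam * lam⁻¹ = 1 := mul_inv_cancel₀ hlam0
    have hl4 : lam ^ 4 - lam ^ 2 + 1 = 0 := by
      have h1 : lam ^ 2 * (lam + lam⁻¹) ^ 2 = (lam ^ 2 + 1) ^ 2 := by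
        have : lam ^ 2 * (lam + lam⁻¹) ^ 2 = (lam ^ 2 + lam * lam⁻¹) ^ 2 := by ring
        rw [this, hinv]
      rw [hl3] at h1
      linear_combination -h1
    have hl12 : lam ^ 12 = 1 := by
      linear_combination (lam ^ 2 + 1) * (lam ^ 6 - 1) * hl4
    have hd12 : p ^ k ∣ 12 := hlam.dvd_of_pow_eq_one 12 hl12
    have hd3 : p ^ k ∣ 3 := by
      have h1 : Nat.Coprime (p ^ k) 4 := by
        have : (4 : ℕ) = 2 ^ 2 := by norm_num
        rw [this]
        exact hcop.pow_right 2
      have h2 : p ^ k ∣ 4 * 3 := by simpa using hd12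
      exact h1.dvd_of_dvd_mul_left h2
    have h3 : p ^ k = 3 := by
      rcases (Nat.dvd_prime Nat.prime_three).mp hd3 with h | h
      · exact absurd h hpk1
      · exact h
    have hl3' : lam ^ 3 = 1 := by
      rw [← h3]
      exact hlam.pow_eq_one
    apply hexc
    refine ⟨h3, ?_⟩
    have h2L : (2 : AlgebraicClosure K) = 0 := by
      have h1 : 2 * lam = 0 := by
        linear_combination (1 + lam) * hl4 + (-(lam * (1 + lam)) + 1) * hl3'
      rcases mul_eq_zero.mp h1 with h | h
      · exact h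
      · exact absurd h hlam0
    apply (algebraMap K (AlgebraicClosure K)).injective
    rw [map_ofNat, map_zero]
    exact h2L

end Pool.Agent.Eng.H47
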