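import Pool.Agent.Helper6_Eng.Stmts

/-!
# Squad ENG, module FGH: the trick of Gupta and Heineken
-/

set_option autoImplicit false

namespace Pool.Agent.Eng.H47

section
variable {M : Type} [AddCommGroup M]

lemma mulapp (A B : AddMonoid.End M) (m : M) : (A * B) m = A (B m) := rfl
lemma subapp (A B : AddMonoid.End M) (m : M) : (A - B) m = A m - B m := rfl
lemma oneapp (m : M) : (1 : AddMonoid.End M) m = m := rfl

lemma ker_sq [Finite M] (T : AddMonoid.End M) (n : ℕ) (hT : T ^ n = 1)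
    (hc : Nat.Coprime n (Nat.card M)) (m : M) (h : (T - 1) ((T - 1) m) = 0) : (T - 1) m = 0 := by
  set a := (T - 1) m with ha
  have h1 : T m = m + a := by
    rw [ha, subapp, oneapp]
    abel
  have h2 : T a = a := by
    rw [subapp, oneapp, sub_eq_zero] at h
    exact h
  have h3 : ∀ k : ℕ, (T ^ k) m = m + k • a := by
    intro k
    induction k with
    | zero =>
      rw [pow_zero, oneapp, zero_smul, add_zero]
    | succ k ih =>
      rw [pow_succ', mulapp, ih, map_add, map_nsmul, h1, h2, succ_nsmul]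
      abel
  have h4 := h3 n
  rw [hT, oneapp] at h4
  have h5 : n • a = 0 := (left_eq_add.mp h4)
  have h6 : addOrderOf a ∣ n := addOrderOf_dvd_of_nsmul_eq_zero h5
  have h7 : addOrderOf a ∣ Nat.card M := addOrderOf_dvd_natCard a
  have h8 : addOrderOf a = 1 := Nat.eq_one_of_dvd_coprimes hc h6 h7
  exact AddMonoid.addOrderOf_eq_one_iff.mp h8

lemma ker_pow [Finite M] (T : AddMonoid.End M) (n : ℕ) (hT : T ^ n = 1)
    (hc : Nat.Coprime n (Nat.card M)) (R : ℕ) : ∀ m : M, ((T - 1) ^ (R + 1)) m = 0 →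
    (T - 1) m = 0 := by
  induction R with
  | zero =>
    intro m h
    rw [zero_add, pow_one] at h
    exact h
  | succ R ih =>
    intro m h
    rw [pow_succ, mulapp] at h
    exact ker_sq T n hT hc m (ih _ h)

lemma main_aux [Finite M] (T : AddMonoid.End M) (n : ℕ) (hT : T ^ n = 1)
    (hc : Nat.Coprime n (Nat.card M)) (R e : ℕ) (h : (T ^ e - 1) * (T - 1) ^ (R + 1) = 0) :
    T ^ e = 1 := by
  have hcomm : (T - 1) ^ (R + 1) * (T ^ e - 1) = 0 := by
    have h1 : Commute T (T - 1) := (Commute.refl T).sub_right (Commute.one_right T)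
    have h2 : Commute (T ^ e) ((T - 1) ^ (R + 1)) := h1.pow_pow e (R + 1)
    have h3 : Commute (T ^ e - 1) ((T - 1) ^ (R + 1)) := h2.sub_left (Commute.one_left _)
    rw [← h3.eq]
    exact h
  rw [← sub_eq_zero]
  apply AddMonoidHom.ext
  intro m
  set w : M := (∑ i ∈ Finset.range e, T ^ i : AddMonoid.End M) m with hw
  have h1 : (T - 1) w = (T ^ e - 1) m := by
    rw [hw, ← mulapp, mul_geom_sum]
  have h2 : (T - 1) ((T ^ e - 1) m) = 0 := by
    apply ker_pow T n hT hc R
    rw [← mulapp, hcomm]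
    rfl
  have h3 : (T - 1) w = 0 := ker_sq T n hT hc w (by rw [h1]; exact h2)
  exact h1.symm.trans h3

end

lemma ring_aux {A : Type} [Ring A] (T T' : A) (hTT' : T * T' = 1) (hT'T : T' * T = 1) (R d : ℕ)
    (hr : (T - 1) ^ (R + d) = (T - 1) ^ R) (hs : (T' - 1) ^ (R + d) = (T' - 1) ^ R) :
    (T - 1) ^ R = (-1) ^ d * (T ^ d * (T - 1) ^ R) := by
  have hcT : Commute T T' := by
    rw [Commute, SemiconjBy, hTT', hT'T]
  have hcT1 : Commute T' (T - 1) := hcT.symm.sub_right (Commute.one_right _)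
  have hrel : T' - 1 = -(T' * (T - 1)) := by
    rw [mul_sub, hT'T, mul_one]
    abel
  have hpow : ∀ k : ℕ, (T' - 1) ^ k = (-1) ^ k * (T' ^ k * (T - 1) ^ k) := by
    intro k
    rw [hrel, neg_pow, hcT1.mul_pow]
  have hTk : ∀ k : ℕ, T ^ k * T' ^ k = 1 := by
    intro k
    rw [← hcT.mul_pow, hTT', one_pow]
  have hc1 : ∀ (j : ℕ) (B : A), B * (-1) ^ j = (-1) ^ j * B := by
    intro j B
    exact ((Commute.neg_one_right B).pow_right j).eq
  have hsq : ∀ k : ℕ, (-1 : A) ^ k * (-1) ^ k = 1 := by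
    intro k
    rw [← pow_add]
    exact Even.neg_one_pow ⟨k, rfl⟩
  have h1 : (-1 : A) ^ (R + d) * (T' ^ (R + d) * (T - 1) ^ R) =
      (-1) ^ R * (T' ^ R * (T - 1) ^ R) := by
    have := hs
    rw [hpow, hpow, hr] at this
    exact this
  -- multiply by `(-1)^(R+d) T^(R+d)`
  have h2 : T ^ (R + d) * ((-1) ^ (R + d) * ((-1 : A) ^ (R + d) * (T' ^ (R + d) * (T - 1) ^ R))) =
      T ^ (R + d) * ((-1) ^ (R + d) * ((-1) ^ R * (T' ^ R * (T - 1) ^ R))) := by rw [h1]
  have hl : T ^ (R + d) * ((-1) ^ (R + d) * ((-1 : A) ^ (R + d) * (T' ^ (R + d) * (T - 1) ^ R))) =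
      (T - 1) ^ R := by
    rw [← mul_assoc ((-1 : A) ^ (R + d)), hsq, one_mul, ← mul_assoc, hTk, one_mul]
  have hrr : T ^ (R + d) * ((-1) ^ (R + d) * ((-1) ^ R * (T' ^ R * (T - 1) ^ R))) =
      (-1) ^ d * (T ^ d * (T - 1) ^ R) := by
    have e1 : (-1 : A) ^ (R + d) * ((-1) ^ R * (T' ^ R * (T - 1) ^ R)) =
        (-1) ^ d * (T' ^ R * (T - 1) ^ R) := by
      rw [← mul_assoc, add_comm R d, pow_add, mul_assoc ((-1 : A) ^ d), hsq, mul_one]
    rw [e1, ← mul_assoc, hc1, mul_assoc, ← mul_assoc (T ^ (R + d)), add_comm R d, pow_add,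
      mul_assoc (T ^ d), hTk, mul_one]
  rw [hl, hrr] at h2
  exact h2

theorem fgh (hab : AbStmt) : GHStmt := by
  intro G _ Z _ M _ _ f y T n hf hy hTn hc d hd
  rcases Nat.eq_zero_or_pos n with hn | hn
  · subst hn
    have h1 : Nat.card M = 1 := by simpa using hc
    have h2 : Subsingleton M := (Nat.card_eq_one_iff_unique.mp h1).1
    have h3 : ∀ A : AddMonoid.End M, A = 1 := by
      intro A
      apply AddMonoidHom.ext
      intro m
      exact Subsingleton.elim _ _
    exact ⟨h3 _, fun _ => h3 _⟩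
  set T' : AddMonoid.End M := T ^ (n - 1) with hT'
  have hTT' : T * T' = 1 := by
    rw [hT', ← pow_succ', Nat.sub_add_cancel hn]
    exact hTn
  have hT'T : T' * T = 1 := by
    rw [hT', ← pow_succ, Nat.sub_add_cancel hn]
    exact hTn
  have hy' : ∀ m : M, (y⁻¹)⁻¹ * f (Multiplicative.ofAdd m) * y⁻¹ =
      f (Multiplicative.ofAdd (T' m)) := by
    intro m
    have h1 := hy (T' m)
    have h2 : T (T' m) = m := by
      rw [← mulapp, hTT', oneapp]
    rw [h2] at h1
    rw [← h1]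
    group
  obtain ⟨r, hr⟩ := hab G Z M f y T hf hy d hd
  obtain ⟨s, hs⟩ := hab G Z M f y⁻¹ T' hf hy' d hd
  have hr' : (T - 1) ^ (r + s + 1 + d) = (T - 1) ^ (r + s + 1) := by
    have e1 : r + s + 1 + d = (s + 1) + (r + d) := by omega
    have e2 : r + s + 1 = (s + 1) + r := by omega
    rw [e1, pow_add, hr, ← pow_add, ← e2]
  have hs' : (T' - 1) ^ (r + s + 1 + d) = (T' - 1) ^ (r + s + 1) := by
    have e1 : r + s + 1 + d = (r + 1) + (s + d) := by omega
    have e2 : r + s + 1 = (r + 1) + s := by omega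
    rw [e1, pow_add, hs, ← pow_add, ← e2]
  have hkey := ring_aux T T' hTT' hT'T (r + s + 1) d hr' hs'
  constructor
  · apply main_aux T n hTn hc (r + s) (2 * d)
    rw [sub_mul, one_mul, sub_eq_zero]
    have hc1 : ∀ (j : ℕ) (A : AddMonoid.End M), A * (-1) ^ j = (-1) ^ j * A := by
      intro j A
      exact ((Commute.neg_one_right A).pow_right j).eq
    have h5 : (-1 : AddMonoid.End M) ^ d * (-1) ^ d = 1 := by
      rw [← pow_add]
      exact Even.neg_one_pow ⟨d, rfl⟩
    have h6 : T ^ d * (T - 1) ^ (r + s + 1) = (-1) ^ d * (T - 1) ^ (r + s + 1) := by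
      conv_rhs => rw [hkey]
      rw [← mul_assoc, h5, one_mul]
    rw [two_mul, pow_add, mul_assoc, h6, ← mul_assoc, hc1, mul_assoc, h6, ← mul_assoc, h5, one_mul]
  · intro hev
    apply main_aux T n hTn hc (r + s) d
    rw [sub_mul, one_mul, sub_eq_zero]
    rw [hev.neg_one_pow, one_mul] at hkey
    exact hkey.symm

end Pool.Agent.Eng.H47
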