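import Pool.Agent.Helper99_Eng3.Stmts

/-! Squad ENG, part 3: module OD2L (helper47). -/

set_option autoImplicit false

namespace Pool.Agent.Eng.H47

theorem od2l (hOHYD : OhydStmt) (hOHYP : OhypStmt) (hOPAR : OparStmt) (hDNS : DnsStmt)
    (hWNS : WnsStmt) : Od2lStmt := by
  intro F V _ _ _ _ _ Q e k hND h2 he hdim hdvd
  obtain ⟨ch, hch⟩ := CharP.exists F
  have hprime : ch.Prime := CharP.char_is_prime F ch
  have : Fact ch.Prime := ⟨hprime⟩
  have : NeZero e := ⟨by omega⟩
  let K := FiniteField.Extension F ch e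
  have hcard : Nat.card K = Nat.card F ^ e := FiniteField.natCard_extension F ch e
  have hrank : Module.finrank F K = e := FiniteField.finrank_extension F ch e
  have : Finite K := Module.finite_of_finite F
  have h2K : (2 : K) ≠ 0 := by
    intro h
    apply h2
    have h3 : algebraMap F K 2 = algebraMap F K 0 := by
      rw [map_ofNat, map_zero]
      exact h
    exact (algebraMap F K).injective h3
  have hF3 : 3 ≤ Nat.card F := by
    have h1 : 1 < Nat.card F := Finite.one_lt_card
    have h3 : Nat.card F ≠ 2 := by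
      intro h
      apply h2
      have h4 : (Nat.card F : F) = 0 := by
        have := Fintype.ofFinite F
        rw [Nat.card_eq_fintype_card]
        exact FiniteField.cast_card_eq_zero F
      rw [h] at h4
      exact_mod_cast h4
    omega
  have h9 : 5 ≤ Nat.card K := by
    rw [hcard]
    calc 5 ≤ 3 ^ 2 := by norm_num
      _ ≤ Nat.card F ^ 2 := Nat.pow_le_pow_left hF3 2
      _ ≤ Nat.card F ^ e := Nat.pow_le_pow_right (by omega) he
  obtain ⟨t, ht, hsq⟩ := hDNS K h2K h9
  obtain ⟨W, hW, hsing⟩ := hOHYD F V Q e hND (by omega)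
  obtain ⟨ι, hι⟩ := hOHYP F V K Q W hND (by rw [hW, hrank]) hsing
  intro d hd hlaw
  obtain ⟨r, hr⟩ := hOPAR F V K Q ι hND hι (by rw [hrank]; exact hdim) t ht d hlaw
  have hu : t ^ 2 - 1 ≠ 0 := by
    intro h
    apply hsq
    rw [h]
    exact IsSquare.zero
  have hu1 : (t ^ 2 - 1) ^ d = 1 := by
    rw [pow_add] at hr
    exact mul_left_cancel₀ (pow_ne_zero r hu) (by rw [hr, mul_one])
  exact hWNS K k d (t ^ 2 - 1) hd hsq hu1 (by rw [hcard]; exact hdvd)

end Pool.Agent.Eng.H47
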