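import Pool.Agent.Helper99_Eng3.Stmts

/-! Squad ENG, part 3: module OODD (helper47). -/

set_option autoImplicit false

namespace Pool.Agent.Eng.H47

section
variable {F V : Type} [Field F] [AddCommGroup V] [Module F V]

theorem OmV_le (Q : QuadraticForm F V) : OmV Q ≤ OV Q := by
  rw [OmV, Subgroup.commutator_le]
  intro a ha b hb
  rw [commutatorElement_def]
  exact (OV Q).mul_mem ((OV Q).mul_mem ((OV Q).mul_mem ha hb) ((OV Q).inv_mem ha))
    ((OV Q).inv_mem hb)

theorem OD_dvd (Q : QuadraticForm F V) (N N' : ℕ) (h : N ∣ N') (hN : OD Q N') : OD Q N :=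
  fun d hd hl => h.trans (hN d hd hl)

end

theorem oodd (hLIFT : LiftStmt) (hLIR : LirStmt) (hODEC : OdecStmt) (hOPTS : OptsStmt)
    (hOPND : OpndStmt) : OoddStmt := by
  intro F V _ _ _ _ _ Q p k hND hN hp hp2 hpF hy
  have hfinV : Finite V := Module.finite_of_finite F
  have hfinE : Finite (V ≃ₗ[F] V) :=
    Finite.of_injective (fun g : V ≃ₗ[F] V => (g : V → V)) DFunLike.coe_injective
  obtain ⟨g, c, hg, hgk⟩ := hLIFT (↥(OmV Q)) (Subgroup.center ↥(OmV Q)) p k hp hy
  have hkc : p ^ k ∣ p ^ c := by
    rw [← hgk, ← hg]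
    exact orderOf_map_dvd (QuotientGroup.mk' (Subgroup.center ↥(OmV Q))) g
  apply OD_dvd Q (p ^ k) (p ^ c) hkc
  by_cases hc0 : c = 0
  · subst hc0
    intro d _ _
    rw [pow_zero]
    exact one_dvd d
  have hc1 : 1 ≤ c := by omega
  have hp3 : 3 ≤ p := by
    have := hp.two_le
    omega
  have h3 : 3 ≤ p ^ c := by
    calc 3 ≤ p := hp3
      _ = p ^ 1 := (pow_one p).symm
      _ ≤ p ^ c := Nat.pow_le_pow_right hp.pos hc1
  have hord : orderOf (g : V ≃ₗ[F] V) = p ^ c := by
    rw [Subgroup.orderOf_coe]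
    exact hg
  have hgO : (g : V ≃ₗ[F] V) ∈ OV Q := OmV_le Q g.2
  obtain ⟨W, hW0, hWs, hWi, hWd, hWc⟩ := hODEC F V Q p c hND (g : V ≃ₗ[F] V) hgO hp hpF hc1 h3 hord
  set f : V ≃ₗ[F] V := (g : V ≃ₗ[F] V) with hf
  have hnt : Nontrivial W := Submodule.nontrivial_iff_ne_bot.2 hW0
  let gl : W →ₗ[F] W := (f : V →ₗ[F] V).restrict hWs
  have hgl : ∀ w : W, ((gl w : W) : V) = f (w : V) := fun w => rfl
  have hirr : ∀ W' : Submodule F W, (∀ x ∈ W', gl x ∈ W') → W' = ⊥ ∨ W' = ⊤ := by
    intro W' hs
    have h1 := hWi (W'.map W.subtype) (Submodule.map_subtype_le W W') (by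
      rintro x ⟨w, hw, rfl⟩
      exact ⟨gl w, hs w hw, rfl⟩)
    rcases h1 with h1 | h1
    · left
      rw [Submodule.eq_bot_iff]
      intro w hw
      have h2 : (w : V) ∈ W'.map W.subtype := ⟨w, hw, rfl⟩
      rw [h1, Submodule.mem_bot] at h2
      exact Subtype.ext h2
    · right
      rw [eq_top_iff]
      intro w _
      have h2 : (w : V) ∈ W'.map W.subtype := by
        rw [h1]
        exact w.2
      obtain ⟨w', hw', he⟩ := h2
      have h3 : w' = w := Subtype.ext he
      rw [← h3]
      exact hw'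
  have hinj : Function.Injective gl := by
    intro a b hab
    apply Subtype.ext
    apply f.injective
    have := congrArg (fun w : W => (w : V)) hab
    exact this
  have hfp : f ^ (p ^ c) = 1 := by
    rw [← hord]
    exact pow_orderOf_eq_one f
  rcases hWc with hs | ⟨h2W, hnd⟩
  · obtain ⟨K, _, _, _, lam, e, hadj, he⟩ := hLIR F W gl hirr
    have hpow : ∀ (n : ℕ) (w : W), ∃ w' : W, (w' : V) = (f ^ n) (w : V) ∧ e w' = lam ^ n * e w := by
      intro n
      induction n with
      | zero =>
        intro w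
        exact ⟨w, rfl, by simp⟩
      | succ n ih =>
        intro w
        obtain ⟨w', h1, h2⟩ := ih (gl w)
        refine ⟨w', ?_, ?_⟩
        · rw [h1, hgl, pow_succ]
          rfl
        · rw [h2, he, pow_succ]
          ring
    have hlam : orderOf lam = p ^ c := by
      apply Nat.dvd_antisymm
      · apply orderOf_dvd_of_pow_eq_one
        obtain ⟨w, hw⟩ := exists_ne (0 : W)
        obtain ⟨w', h1, h2⟩ := hpow (p ^ c) w
        rw [hfp] at h1
        have h3 : w' = w := Subtype.ext h1
        rw [h3] at h2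
        have h4 : e w ≠ 0 := fun h => hw (e.map_eq_zero_iff.1 h)
        have h5 : 1 * e w = lam ^ (p ^ c) * e w := by rw [one_mul]; exact h2
        exact (mul_right_cancel₀ h4 h5).symm
      · apply hWd
        intro w hw
        obtain ⟨w', h1, h2⟩ := hpow (orderOf lam) ⟨w, hw⟩
        rw [pow_orderOf_eq_one, one_mul] at h2
        have h3 := e.injective h2
        rw [h3] at h1
        exact h1.symm
    exact hOPTS F V K Q W lam p c hND hN (LinearEquiv.finrank_eq e) hs hadj hp hp2 hc1 hlam
  · let gW : W ≃ₗ[F] W := LinearEquiv.ofInjectiveEndo gl hinj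
    have hgW : ∀ w : W, ((gW w : W) : V) = f (w : V) := fun w => rfl
    let P : QuadraticForm F W := Q.comp W.subtype
    have hP : ∀ x : W, Q (W.subtype x) = P x := fun x => rfl
    have hpol : ∀ u v : W, QuadraticMap.polar P u v = QuadraticMap.polar Q (u : V) (v : V) :=
      fun u v => rfl
    have hgP : gW ∈ OV P := by
      intro w
      show Q (gW w : V) = Q (w : V)
      rw [hgW]
      exact hgO w
    have hNDP : ND P := by
      intro u hu
      apply Subtype.ext
      apply hnd u u.2
      intro v hv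
      have := hu ⟨v, hv⟩
      rw [hpol] at this
      exact this
    have hpow : ∀ (n : ℕ) (w : W), (((gW ^ n) w : W) : V) = (f ^ n) (w : V) := by
      intro n
      induction n with
      | zero =>
        intro w
        rfl
      | succ n ih =>
        intro w
        rw [pow_succ, pow_succ]
        show (((gW ^ n) (gW w) : W) : V) = (f ^ n) (f (w : V))
        rw [ih, hgW]
    have hordW : orderOf gW = p ^ c := by
      apply Nat.dvd_antisymm
      · apply orderOf_dvd_of_pow_eq_one
        ext w
        rw [hpow, hfp]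
        rfl
      · apply hWd
        intro w hw
        have h1 := hpow (orderOf gW) ⟨w, hw⟩
        rw [pow_orderOf_eq_one] at h1
        exact h1.symm
    exact hOPND F V W Q P W.subtype p c hND hNDP (by omega) h2W hP gW hgP
      (fun W' hW' => hirr W' hW') hp hp2 hc1 hordW

end Pool.Agent.Eng.H47
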